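import Pool.Agent.H85.LK.Targets

/-!
Board `lk_modules`, row FL2: mass of the random fields.
-/

set_option autoImplicit false

open MeasureTheory Metric Set ProbabilityTheory

namespace Pool.Agent.H17.LK

open Pool.Agent.H85.LK

theorem pf_FL2 (hNRM : T_NRM) (hMEA : T_MEA) : T_FL2 := by
  intro N n b l A Ψ hb hl hA hbd hΨ
  obtain ⟨hm, ⟨M, hM⟩, hBd, -, -⟩ := hMEA N n b l A Ψ hb hl hA hΨ
  have hfin : volume A ≠ ⊤ := hbd.measure_lt_top.ne
  have h1 : Integrable (A.indicator (fun _ => M ^ 2)) (volume : Measure (E N)) :=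
    (integrable_indicator_iff hA).2 (integrableOn_const hfin)
  have h2 : Integrable (fun p : E n × E N => A.indicator (fun _ => M ^ 2) p.2)
      ((stdGaussian (E n)).prod volume) := h1.comp_snd _
  have h3 : Integrable (fun p : E n × E N => GG b l p.1 (Ψ p.2) ^ 2)
      ((stdGaussian (E n)).prod volume) := by
    refine h2.mono' (hm.pow_const 2).aestronglyMeasurable
      (Filter.Eventually.of_forall fun p => ?_)
    by_cases hx : p.2 ∈ A
    · rw [indicator_of_mem hx, Real.norm_eq_abs, abs_pow, ← sq_abs M]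
      have := hM p.1 p.2
      exact pow_le_pow_left₀ (abs_nonneg _) (this.trans (le_abs_self M)) 2
    · have h0 : GG b l p.1 (Ψ p.2) = 0 := (hBd p.1).2.2.2 p.2 hx
      rw [indicator_of_notMem hx, h0]
      simp
  refine ⟨h3.integral_prod_left, ?_⟩
  rw [integral_integral_swap (f := fun c x => GG b l c (Ψ x) ^ 2) h3]
  rw [← integral_const_mul]
  exact integral_congr_ae (Filter.Eventually.of_forall fun x => hNRM n b l (Ψ x) hb hl)

end Pool.Agent.H17.LK
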