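import Pool.Agent.H85.LK.Targets

/-!
Board `lk_modules`, row INT: integrability facts.
-/

set_option autoImplicit false

open MeasureTheory Metric Set

namespace Pool.Agent.H17.LK

open Pool.Agent.H85.LK

namespace INT

theorem hk_neg (N : ℕ) (s : ℝ) (z : E N) : hk N s (-z) = hk N s z := by
  simp only [hk, norm_neg]

theorem hk_sub_comm (N : ℕ) (s : ℝ) (x y : E N) : hk N s (x - y) = hk N s (y - x) := by
  rw [← hk_neg, neg_sub]

theorem bd_integrable {N : ℕ} {A : Set (E N)} (hA : MeasurableSet A)
    (hb : Bornology.IsBounded A) {f : E N → ℝ} (hf : Bd A f) : Integrable f := by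
  obtain ⟨hm, ⟨M, hM⟩, h0⟩ := hf
  have hfin : volume A ≠ ⊤ := hb.measure_lt_top.ne
  have h1 : Integrable (A.indicator (fun _ => M)) volume :=
    (integrable_indicator_iff hA).2 (integrableOn_const hfin)
  refine h1.mono' hm.aestronglyMeasurable (Filter.Eventually.of_forall fun x => ?_)
  by_cases hx : x ∈ A
  · rw [indicator_of_mem hx]
    exact hM x
  · rw [indicator_of_notMem hx, h0 x hx, norm_zero]

theorem bd_mul {N : ℕ} {A : Set (E N)} {f g : E N → ℝ} (hf : Bd A f) (hg : Bd A g) :
    Bd A (fun x => f x * g x) := by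
  obtain ⟨hm, ⟨M, hM⟩, h0⟩ := hf
  obtain ⟨hm', ⟨M', hM'⟩, h0'⟩ := hg
  refine ⟨hm.mul hm', ⟨M * M', fun x => ?_⟩, fun x hx => ?_⟩
  · rw [abs_mul]
    exact mul_le_mul (hM x) (hM' x) (abs_nonneg _) ((abs_nonneg _).trans (hM x))
  · show f x * g x = 0
    rw [h0 x hx, zero_mul]

theorem k2 {N : ℕ} {s : ℝ} (hk1 : Integrable (hk N s)) {h : E N → ℝ} (hh : Integrable h) :
    Integrable (fun p : E N × E N => hk N s (p.1 - p.2) * h p.2) (volume.prod volume) := by
  have h1 := Integrable.convolution_integrand (ContinuousLinearMap.mul ℝ ℝ) hh hk1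
  refine h1.congr (Filter.Eventually.of_forall fun p => ?_)
  simp only [ContinuousLinearMap.mul_apply']
  ring

theorem k1 {N : ℕ} {s : ℝ} (hk1 : Integrable (hk N s)) {h : E N → ℝ} (hh : Integrable h) :
    Integrable (fun p : E N × E N => hk N s (p.1 - p.2) * h p.1) (volume.prod volume) := by
  have h1 := (k2 hk1 hh).swap
  refine h1.congr (Filter.Eventually.of_forall fun p => ?_)
  simp only [Function.comp_apply, Prod.fst_swap, Prod.snd_swap]
  rw [hk_sub_comm]

end INT

open INT

theorem pf_INT (hHK : T_HK) : T_INT := by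
  intro N s A f g hs hA hb hf hg
  obtain ⟨kpos, kcont, kint, kone, -⟩ := hHK N s hs
  have fint := bd_integrable hA hb hf
  have fgint := bd_integrable hA hb (bd_mul hf hg)
  have ffint : Integrable (fun x => f x ^ 2) := by
    have := bd_integrable hA hb (bd_mul hf hf)
    simpa only [pow_two] using this
  have hcx : ∀ x : E N, Integrable (fun y => hk N s (x - y)) := fun x =>
    kint.comp_sub_left x
  have hmeask : Measurable (fun p : E N × E N => hk N s (p.1 - p.2)) :=
    (kcont.comp (continuous_fst.sub continuous_snd)).measurable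
  have hone : ∀ x : E N, ∫ y, hk N s (x - y) = 1 := fun x => by
    rw [integral_sub_left_eq_self (hk N s) volume x]
    exact kone
  have hptw : ∀ (w : E N → ℝ), Bd A w → ∀ x, Integrable (fun y => hk N s (x - y) * w y) := by
    intro w hw x
    obtain ⟨hm, ⟨M, hM⟩, -⟩ := hw
    refine ((hcx x).mul_const M).mono' ?_ (Filter.Eventually.of_forall fun y => ?_)
    · exact ((kcont.comp (continuous_const.sub continuous_id)).measurable.mul
        hm).aestronglyMeasurable
    · rw [Real.norm_eq_abs, abs_mul, abs_of_pos (kpos _)]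
      exact mul_le_mul_of_nonneg_left (hM y) (kpos _).le
  have hbound : ∀ (w : E N → ℝ), Bd A w → ∀ M : ℝ, (∀ x, |w x| ≤ M) → ∀ x, |sm N s w x| ≤ M := by
    intro w hw M hM x
    calc |sm N s w x| ≤ ∫ y, |hk N s (x - y) * w y| := by
          rw [sm]
          exact abs_integral_le_integral_abs
      _ ≤ ∫ y, hk N s (x - y) * M := by
          refine integral_mono (hptw w hw x).abs ((hcx x).mul_const M) fun y => ?_
          show |hk N s (x - y) * w y| ≤ hk N s (x - y) * M
          rw [abs_mul, abs_of_pos (kpos _)]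
          exact mul_le_mul_of_nonneg_left (hM y) (kpos _).le
      _ = M := by rw [integral_mul_const, hone, one_mul]
  have hmeas : ∀ (w : E N → ℝ), Bd A w → Measurable (sm N s w) := by
    intro w hw
    have h1 : StronglyMeasurable (Function.uncurry fun x y : E N => hk N s (x - y) * w y) := by
      refine Measurable.stronglyMeasurable ?_
      exact hmeask.mul (hw.1.comp measurable_snd)
    exact h1.integral_prod_right.measurable
  have hsmint : ∀ (w : E N → ℝ), Bd A w → Integrable (sm N s w) := fun w hw =>
    (k2 kint (bd_integrable hA hb hw)).integral_prod_left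
  obtain ⟨M', hM'⟩ := hg.2.1
  refine ⟨?_, k1 kint ffint, k2 kint ffint, fint, fgint, ffint, hmeas f hf, hsmint f hf,
    hbound f hf, hptw f hf, ?_⟩
  · refine ((k1 kint fint.abs).mul_const M').mono' ?_ (Filter.Eventually.of_forall fun p => ?_)
    · exact (hmeask.mul ((hf.1.comp measurable_fst).mul
        (hg.1.comp measurable_snd))).aestronglyMeasurable
    · rw [Real.norm_eq_abs, abs_mul, abs_of_pos (kpos _), abs_mul, mul_assoc]
      exact mul_le_mul_of_nonneg_left (mul_le_mul_of_nonneg_left (hM' _) (abs_nonneg _))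
        (kpos _).le
  · refine (fint.abs.mul_const M').mono' (hf.1.mul (hmeas g hg)).aestronglyMeasurable
      (Filter.Eventually.of_forall fun x => ?_)
    rw [Real.norm_eq_abs, abs_mul]
    exact mul_le_mul_of_nonneg_left (hbound g hg M' hM' x) (abs_nonneg _)

end Pool.Agent.H17.LK
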