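import Pool.Agent.H85.LK.Targets

/-!
Board `lk_modules`, row RPT: tail of the smoothing.
-/

set_option autoImplicit false

open MeasureTheory Metric Set

namespace Pool.Agent.H17.LK

open Pool.Agent.H85.LK

theorem cs_aux {α : Type} [MeasurableSpace α] (μ : Measure α) (k w : α → ℝ)
    (hk : ∀ x, 0 ≤ k x) (h0 : Integrable k μ) (h1 : Integrable (fun x => k x * w x) μ)
    (h2 : Integrable (fun x => k x * w x ^ 2) μ) :
    (∫ x, k x * w x ∂μ) ^ 2 ≤ (∫ x, k x ∂μ) * ∫ x, k x * w x ^ 2 ∂μ := by
  have h : ∀ t : ℝ, 0 ≤ (∫ x, k x ∂μ) * (t * t) + (-2 * ∫ x, k x * w x ∂μ) * t +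
      ∫ x, k x * w x ^ 2 ∂μ := by
    intro t
    have e : ∫ x, k x * (w x - t) ^ 2 ∂μ = (∫ x, k x ∂μ) * (t * t) +
        (-2 * ∫ x, k x * w x ∂μ) * t + ∫ x, k x * w x ^ 2 ∂μ := by
      have e1 : (fun x => k x * (w x - t) ^ 2) =
          fun x => (k x * (t * t) + (k x * w x) * (-2 * t)) + k x * w x ^ 2 := by
        funext x
        ring
      have i1 : Integrable (fun x => k x * (t * t)) μ := h0.mul_const _
      have i2 : Integrable (fun x => (k x * w x) * (-2 * t)) μ := h1.mul_const _
      have i12 : Integrable (fun x => k x * (t * t) + (k x * w x) * (-2 * t)) μ := i1.add i2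
      rw [e1, integral_add i12 h2, integral_add i1 i2, integral_mul_const, integral_mul_const]
      ring
    rw [← e]
    exact integral_nonneg fun x => mul_nonneg (hk x) (sq_nonneg _)
  have hd := discrim_le_zero h
  rw [discrim] at hd
  nlinarith

theorem pf_RPT (hHK : T_HK) (hINT : T_INT) : T_RPT := by
  intro N s η f hs hη hf
  obtain ⟨kpos, kcont, kint, kone, -⟩ := hHK N s hs
  obtain ⟨-, -, i3, fint, -, ffint, smm, smi, -, -, -⟩ :=
    hINT N s (ball 0 1) f f hs measurableSet_ball isBounded_ball hf hf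
  set S : Set (E N) := {z : E N | η ≤ ‖z‖} with hS
  have hSm : MeasurableSet S := measurableSet_le measurable_const measurable_norm
  set k : E N → ℝ := S.indicator (hk N s) with hk'
  have k0 : ∀ z, 0 ≤ k z := fun z => indicator_nonneg (fun z _ => (kpos z).le) z
  have kle : ∀ z, k z ≤ hk N s z := fun z => indicator_le_self' (fun z _ => (kpos z).le) z
  have kI : Integrable k := kint.indicator hSm
  have kM : Measurable k := kcont.measurable.indicator hSm
  obtain ⟨M, hM⟩ := hf.2.1
  have hff : Bd (ball (0 : E N) 1) (fun y => f y ^ 2) :=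
    ⟨hf.1.pow_const 2, ⟨M ^ 2, fun x => by
      rw [abs_pow]
      exact pow_le_pow_left₀ (abs_nonneg _) (hM x) 2⟩, fun x hx => by
      show f x ^ 2 = 0
      rw [hf.2.2 x hx]
      ring⟩
  have hptf : ∀ x, Integrable (fun y => hk N s (x - y) * f y ^ 2) :=
    (hINT N s (ball 0 1) (fun y => f y ^ 2) f hs measurableSet_ball isBounded_ball hff
      hf).2.2.2.2.2.2.2.2.2.1
  have hkx : ∀ x, Integrable (fun y => k (x - y)) := fun x => kI.comp_sub_left x
  have hkM : ∀ x, Measurable (fun y => k (x - y)) := fun x =>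
    kM.comp (measurable_const.sub measurable_id)
  have hb : ∀ (w : E N → ℝ), Measurable w → (∃ C : ℝ, ∀ x, |w x| ≤ C) → ∀ x,
      Integrable (fun y => k (x - y) * w y) := by
    intro w hw ⟨C, hC⟩ x
    refine ((hkx x).mul_const C).mono' ((hkM x).mul hw).aestronglyMeasurable
      (Filter.Eventually.of_forall fun y => ?_)
    rw [Real.norm_eq_abs, abs_mul, abs_of_nonneg (k0 _)]
    exact mul_le_mul_of_nonneg_left (hC y) (k0 _)
  have hP : ∀ x, ∫ y, k (x - y) = ∫ z in S, hk N s z := by
    intro x
    rw [integral_sub_left_eq_self k volume x, hk', integral_indicator hSm]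
  have hP0 : 0 ≤ ∫ z in S, hk N s z := integral_nonneg fun z => (kpos z).le
  have hpt : ∀ x : E N, 1 + η ≤ ‖x‖ → sm N s f x ^ 2 ≤
      (∫ z in S, hk N s z) * ∫ y, hk N s (x - y) * f y ^ 2 := by
    intro x hx
    have e : sm N s f x = ∫ y, k (x - y) * f y := by
      rw [sm]
      refine integral_congr_ae (Filter.Eventually.of_forall fun y => ?_)
      show hk N s (x - y) * f y = k (x - y) * f y
      by_cases hy : y ∈ ball (0 : E N) 1
      · have h1 : x - y ∈ S := by
          rw [mem_ball_zero_iff] at hy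
          have := norm_sub_norm_le x y
          show η ≤ ‖x - y‖
          linarith
        rw [hk', indicator_of_mem h1]
      · rw [hf.2.2 y hy, mul_zero, mul_zero]
    rw [e]
    refine (cs_aux volume (fun y => k (x - y)) f (fun y => k0 _) (hkx x)
      (hb f hf.1 hf.2.1 x) (hb _ hff.1 hff.2.1 x)).trans ?_
    rw [hP x]
    refine mul_le_mul_of_nonneg_left ?_ hP0
    exact integral_mono (hb _ hff.1 hff.2.1 x) (hptf x) fun y =>
      mul_le_mul_of_nonneg_right (kle _) (sq_nonneg _)
  set H : E N → ℝ := fun x => ∫ y, hk N s (x - y) * f y ^ 2 with hH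
  have hHi : Integrable H := i3.integral_prod_left
  have hH0 : ∀ x, 0 ≤ H x := fun x =>
    integral_nonneg fun y => mul_nonneg (kpos _).le (sq_nonneg _)
  have hHint : ∫ x, H x = ∫ x, f x ^ 2 := by
    rw [hH, integral_integral_swap (f := fun x y => hk N s (x - y) * f y ^ 2) i3]
    refine integral_congr_ae (Filter.Eventually.of_forall fun y => ?_)
    show ∫ x, hk N s (x - y) * f y ^ 2 = f y ^ 2
    rw [integral_mul_const, integral_sub_right_eq_self (hk N s) y, kone, one_mul]
  have hSx : MeasurableSet {x : E N | 1 + η ≤ ‖x‖} :=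
    measurableSet_le measurable_const measurable_norm
  calc ∫ x in {x : E N | 1 + η ≤ ‖x‖}, sm N s f x ^ 2 ≤
      ∫ x in {x : E N | 1 + η ≤ ‖x‖}, (∫ z in S, hk N s z) * H x := by
        refine integral_mono_of_nonneg (Filter.Eventually.of_forall fun x => sq_nonneg _)
          (hHi.integrableOn.const_mul _) ?_
        filter_upwards [ae_restrict_mem hSx] with x hx
        exact hpt x hx
    _ = (∫ z in S, hk N s z) * ∫ x in {x : E N | 1 + η ≤ ‖x‖}, H x := integral_const_mul _ _
    _ ≤ (∫ z in S, hk N s z) * ∫ x, H x :=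
        mul_le_mul_of_nonneg_left
          (setIntegral_le_integral hHi (Filter.Eventually.of_forall hH0)) hP0
    _ = _ := by rw [hHint]

end Pool.Agent.H17.LK
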